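import Pool.Agent.Helper90.KOM.Stmts
import Pool.Agent.Helper3.NFR.Low

/-! # Komlos: the integrals and the upper bound (port of Helper3/NFR/{Base,Int,Cost} to real matrices) -/

namespace Pool.Agent.Helper61.KOM

open Finset MeasureTheory Pool.Agent.Helper90.KOM
open Pool.Agent.Helper3.NFR (ph ps J0 dn ph_nonneg ph_le_one ph_le_sq ph_zero ph_cont J0_pos
  dn_nonneg dn_int dn_one prod_dn_int prod_dn_one)
open scoped Classical

variable {V R : Type} [Fintype V] [Fintype R]

omit [Fintype V] in
theorem fn_cont (a : V → R → ℝ) (v : V) : Continuous (fn a v) := by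
  unfold fn
  fun_prop

omit [Fintype V] in
theorem xp_le (a : V → R → ℝ) (c : ℝ) (s : V → ℝ) (T E : Finset V) (hc : 0 ≤ c) (y : R → ℝ) :
    xp a c s T E y ≤ c * E.card := by
  unfold xp
  have h1 : ∑ u ∈ E, ph (fn a u y) ≤ E.card := by
    calc _ ≤ ∑ u ∈ E, (1 : ℝ) := Finset.sum_le_sum fun u _ => ph_le_one _
      _ = _ := by simp
  have h2 : 0 ≤ ∑ v ∈ T, ph (s v * fn a v y) := Finset.sum_nonneg fun v _ => ph_nonneg _
  have h3 := mul_le_mul_of_nonneg_left h1 hc
  linarith

omit [Fintype V] in
theorem xp_cont' (a : V → R → ℝ) (c : ℝ) (s : V → ℝ) (T E : Finset V) :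
    Continuous (xp a c s T E) := by
  unfold xp
  have h1 : ∀ u, Continuous (fun y => ph (fn a u y)) := fun u => ph_cont.comp (fn_cont a u)
  have h2 : ∀ v, Continuous (fun y => ph (s v * fn a v y)) := fun v =>
    ph_cont.comp (continuous_const.mul (fn_cont a v))
  exact (continuous_const.mul (continuous_finsetSum _ fun u _ => h1 u)).sub
    (continuous_finsetSum _ fun v _ => h2 v)

omit [Fintype V] in
theorem wt_pos (a : V → R → ℝ) (b c : ℝ) (lam : R → ℝ) (s : V → ℝ) (T E : Finset V)
    (hl : ∀ S, 0 < lam S) (y : R → ℝ) : 0 < wt a b c lam s T E y := by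
  unfold wt
  apply mul_pos _ (Real.exp_pos _)
  apply Finset.prod_pos
  intro S _
  unfold dn
  have := J0_pos
  have := hl S
  positivity

theorem st_int : ST_INT := by
  intro V R _ _ a b c lam s T E hb hc hl
  have hI : Integrable (wt a b c lam s T E) := by
    have h0 : Integrable (fun y : R → ℝ => Real.exp (b * (c * E.card)) * ∏ S, dn (lam S) (y S)) :=
      (prod_dn_int lam hl).const_mul _
    refine h0.mono ?_ ?_
    · have h1 := (prod_dn_int lam hl).aestronglyMeasurable
      have h2 : Continuous (fun y : R → ℝ => Real.exp (b * xp a c s T E y)) :=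
        Real.continuous_exp.comp (continuous_const.mul (xp_cont' a c s T E))
      exact h1.mul h2.aestronglyMeasurable
    · refine Filter.Eventually.of_forall fun y => ?_
      rw [Real.norm_of_nonneg (wt_pos a b c lam s T E hl y).le]
      have h3 : 0 ≤ ∏ S, dn (lam S) (y S) := Finset.prod_nonneg fun S _ => dn_nonneg _ _ (hl S)
      rw [Real.norm_of_nonneg (mul_nonneg (Real.exp_pos _).le h3)]
      unfold wt
      rw [mul_comm]
      apply mul_le_mul_of_nonneg_right _ h3
      apply Real.exp_le_exp.mpr
      exact mul_le_mul_of_nonneg_left (xp_le a c s T E hc y) hb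
  refine ⟨hI, ?_, prod_dn_one lam hl⟩
  unfold ZZ
  rw [integral_pos_iff_support_of_nonneg (fun y => (wt_pos a b c lam s T E hl y).le) hI]
  have : Function.support (wt a b c lam s T E) = Set.univ := by
    ext x
    simp only [Function.mem_support, Set.mem_univ, iff_true]
    exact (wt_pos a b c lam s T E hl x).ne'
  rw [this]
  exact isOpen_univ.measure_pos _ Set.univ_nonempty

theorem st_up : ST_UP := by
  intro V R _ _ a b c lam s T E hb hc hl
  obtain ⟨hI, hZ, -⟩ := st_int V R a b c lam s T E hb hc hl
  have h1 : ZZ a b c lam s T E ≤ Real.exp (b * c * E.card) * 1 := by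
    unfold ZZ
    rw [← prod_dn_one lam hl, ← integral_const_mul]
    refine integral_mono hI ((prod_dn_int lam hl).const_mul _) ?_
    intro y
    show wt a b c lam s T E y ≤ _
    unfold wt
    have h3 : 0 ≤ ∏ S, dn (lam S) (y S) := Finset.prod_nonneg fun S _ => dn_nonneg _ _ (hl S)
    rw [mul_comm]
    apply mul_le_mul_of_nonneg_right _ h3
    apply Real.exp_le_exp.mpr
    rw [mul_assoc]
    exact mul_le_mul_of_nonneg_left (xp_le a c s T E hc y) hb
  rw [mul_one] at h1
  have h2 := Real.log_le_log hZ h1
  rw [Real.log_exp] at h2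
  exact h2

end Pool.Agent.Helper61.KOM
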