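import Pool.Agent.Helper61.KOM.Base

/-! # Komlos: lower bound of the partition function -/

namespace Pool.Agent.Helper61.KOM

open Finset MeasureTheory Pool.Agent.Helper90.KOM
open Pool.Agent.Helper3.NFR (ph ps J0 dn ph_nonneg ph_le_one ph_le_sq ph_zero ph_cont J0_pos
  dn_nonneg dn_int dn_one prod_dn_int prod_dn_one flipf flip_inv flip_mp flip_integral dn_neg
  prod_dn_flip ph_dn_int h2_int st_rat ph_mono)
open scoped Classical

variable {R : Type} [Fintype R]

theorem ph_sub (lam : R → ℝ) (hl : ∀ S, 0 < lam S) (w : R → ℝ) (A : Finset R) :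
    ∫ y : R → ℝ, ph (∑ S ∈ A, w S * y S) * ∏ S, dn (lam S) (y S) ≤
      ∑ S' ∈ A, ∫ y : R → ℝ, ph (w S' * y S') * ∏ S, dn (lam S) (y S) := by
  induction A using Finset.induction_on with
  | empty => simp [ph_zero]
  | insert S0 A hS ih =>
    rw [Finset.sum_insert hS]
    have c1 : Continuous (fun y : R → ℝ => ∑ S ∈ A, w S * y S) := by fun_prop
    have c2 : Continuous (fun y : R → ℝ => ∑ S ∈ insert S0 A, w S * y S) := by fun_prop
    have c3 : Continuous (fun y : R → ℝ => ∑ S ∈ A, w S * y S - w S0 * y S0) := by fun_prop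
    have c4 : Continuous (fun y : R → ℝ => w S0 * y S0) := by fun_prop
    have i1 := ph_dn_int lam hl _ c1
    have i2 := ph_dn_int lam hl _ c2
    have i3 := ph_dn_int lam hl _ c3
    have i4 := ph_dn_int lam hl _ c4
    have hflip : ∫ y : R → ℝ, ph (∑ S ∈ A, w S * y S - w S0 * y S0) * ∏ S, dn (lam S) (y S) =
        ∫ y : R → ℝ, ph (∑ S ∈ insert S0 A, w S * y S) * ∏ S, dn (lam S) (y S) := by
      rw [← flip_integral S0]
      apply integral_congr_ae
      refine Filter.Eventually.of_forall fun y => ?_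
      show ph (∑ S ∈ A, w S * flipf S0 y S - w S0 * flipf S0 y S0)
          * ∏ S, dn (lam S) (flipf S0 y S) =
        ph (∑ S ∈ insert S0 A, w S * y S) * ∏ S, dn (lam S) (y S)
      rw [prod_dn_flip, Finset.sum_insert hS]
      congr 2
      have e1 : ∑ S ∈ A, w S * flipf S0 y S = ∑ S ∈ A, w S * y S := by
        apply Finset.sum_congr rfl
        intro S hSA
        unfold flipf
        have : S ≠ S0 := fun h => hS (h ▸ hSA)
        simp [this]
      have e2 : flipf S0 y S0 = - y S0 := by unfold flipf; simp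
      rw [e1, e2]
      ring
    have hm : ∫ y : R → ℝ, (ph (∑ S ∈ insert S0 A, w S * y S) * ∏ S, dn (lam S) (y S) +
        ph (∑ S ∈ A, w S * y S - w S0 * y S0) * ∏ S, dn (lam S) (y S)) ≤
        ∫ y : R → ℝ, (2 * (ph (∑ S ∈ A, w S * y S) * ∏ S, dn (lam S) (y S)) +
          2 * (ph (w S0 * y S0) * ∏ S, dn (lam S) (y S))) := by
      apply integral_mono (i2.add i3) ((i1.const_mul 2).add (i4.const_mul 2))
      intro y
      have h1 := st_rat.2.1 (∑ S ∈ A, w S * y S) (w S0 * y S0)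
      have h2 : 0 ≤ ∏ S, dn (lam S) (y S) := Finset.prod_nonneg fun S _ => dn_nonneg _ _ (hl S)
      show ph (∑ S ∈ insert S0 A, w S * y S) * ∏ S, dn (lam S) (y S) +
        ph (∑ S ∈ A, w S * y S - w S0 * y S0) * ∏ S, dn (lam S) (y S) ≤
        2 * (ph (∑ S ∈ A, w S * y S) * ∏ S, dn (lam S) (y S)) +
          2 * (ph (w S0 * y S0) * ∏ S, dn (lam S) (y S))
      rw [Finset.sum_insert hS, add_comm (w S0 * y S0)]
      nlinarith [mul_le_mul_of_nonneg_right h1 h2]
    rw [integral_add i2 i3, integral_add (i1.const_mul 2) (i4.const_mul 2), hflip,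
      integral_const_mul, integral_const_mul] at hm
    linarith

theorem ph_one (l w : ℝ) (hl : 0 < l) :
    ∫ x, ph (w * x) * dn l x ≤ w ^ 2 * ((∫ x : ℝ, x ^ 2 * ((1 + x ^ 2) ^ 2)⁻¹) / J0 / l ^ 2) := by
  have hJ := J0_pos
  have e : ∀ x : ℝ, 1 / (l * J0) * ((l * x) ^ 2 * ((1 + (l * x) ^ 2) ^ 2)⁻¹) = x ^ 2 * dn l x := by
    intro x
    unfold dn
    field_simp
  have hi : Integrable (fun x : ℝ => x ^ 2 * dn l x) := by
    have h1 : Integrable (fun x : ℝ => (l * x) ^ 2 * ((1 + (l * x) ^ 2) ^ 2)⁻¹) :=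
      h2_int.comp_mul_left' hl.ne'
    have h2 := h1.const_mul (1 / (l * J0))
    exact h2.congr (Filter.Eventually.of_forall e)
  have hv : ∫ x, x ^ 2 * dn l x = (∫ x : ℝ, x ^ 2 * ((1 + x ^ 2) ^ 2)⁻¹) / J0 / l ^ 2 := by
    rw [← integral_congr_ae (Filter.Eventually.of_forall e), integral_const_mul,
      Measure.integral_comp_mul_left (fun x : ℝ => x ^ 2 * ((1 + x ^ 2) ^ 2)⁻¹) l, smul_eq_mul,
      abs_of_pos (by positivity)]
    field_simp
  rw [← hv, ← integral_const_mul]
  have hc : Continuous (fun x : ℝ => ph (w * x)) := ph_cont.comp (by fun_prop)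
  refine integral_mono ?_ (hi.const_mul _) ?_
  · refine (dn_int l hl).mono (hc.aestronglyMeasurable.mul (dn_int l hl).aestronglyMeasurable) ?_
    refine Filter.Eventually.of_forall fun y => ?_
    rw [norm_mul, Real.norm_of_nonneg (ph_nonneg _)]
    exact mul_le_of_le_one_left (norm_nonneg _) (ph_le_one _)
  · intro x
    show ph (w * x) * dn l x ≤ w ^ 2 * (x ^ 2 * dn l x)
    have h1 := mul_le_mul_of_nonneg_right (ph_le_sq (w * x)) (dn_nonneg l x hl)
    calc _ ≤ _ := h1
      _ = _ := by ring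

theorem ph_coord (l w : ℝ) (hl : 0 < l) (S0 : R) :
    ∫ y : R → ℝ, ph (w * y S0) * ∏ S, dn l (y S) = ∫ x, ph (w * x) * dn l x := by
  have e : ∀ y : R → ℝ, ph (w * y S0) * ∏ S, dn l (y S) =
      ∏ S, (if S = S0 then (fun x => ph (w * x) * dn l x) else dn l) (y S) := by
    intro y
    rw [← Finset.mul_prod_erase Finset.univ _ (Finset.mem_univ S0),
      ← Finset.mul_prod_erase Finset.univ (fun S => (if S = S0 then (fun x => ph (w * x) * dn l x)
        else dn l) (y S)) (Finset.mem_univ S0)]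
    simp only [if_true]
    rw [← mul_assoc]
    congr 1
    apply Finset.prod_congr rfl
    intro S hS
    rw [Finset.mem_erase] at hS
    simp [hS.1]
  rw [integral_congr_ae (Filter.Eventually.of_forall e), integral_fintype_prod_volume_eq_prod,
    ← Finset.mul_prod_erase Finset.univ _ (Finset.mem_univ S0)]
  simp only [if_true]
  have : ∏ S ∈ Finset.univ.erase S0,
      ∫ x, (if S = S0 then (fun x => ph (w * x) * dn l x) else dn l) x = 1 := by
    apply Finset.prod_eq_one
    intro S hS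
    rw [Finset.mem_erase] at hS
    simp only [hS.1, if_false]
    exact dn_one l hl
  rw [this, mul_one]

theorem dn_low (l : ℝ) (hl : 0 < l) (e : ℝ) (he : 0 ≤ e) (x : ℝ) :
    (1 / (1 + e)) * dn l x ≤ dn (l / (1 + e)) x := by
  unfold dn
  have hJ := J0_pos
  have h2 : (1 : ℝ) ≤ 1 + e := by linarith
  have h3 : (l / (1 + e) * x) ^ 2 ≤ (l * x) ^ 2 := by
    have : l / (1 + e) * x = (l * x) / (1 + e) := by ring
    rw [this, div_pow]
    apply div_le_self (sq_nonneg _)
    exact one_le_pow₀ h2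
  have h4 : ((1 + (l * x) ^ 2) ^ 2)⁻¹ ≤ ((1 + (l / (1 + e) * x) ^ 2) ^ 2)⁻¹ := by
    apply inv_anti₀ (by positivity)
    apply pow_le_pow_left₀ (by positivity)
    linarith
  calc (1 / (1 + e)) * (l / J0 * ((1 + (l * x) ^ 2) ^ 2)⁻¹)
      = l / (1 + e) / J0 * ((1 + (l * x) ^ 2) ^ 2)⁻¹ := by ring
    _ ≤ _ := mul_le_mul_of_nonneg_left h4 (by positivity)

theorem st_low : ST_LOW := by
  have hJ := J0_pos
  have hJ2 : 0 ≤ ∫ x : ℝ, x ^ 2 * ((1 + x ^ 2) ^ 2)⁻¹ := integral_nonneg fun x => by positivity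
  refine ⟨(∫ x : ℝ, x ^ 2 * ((1 + x ^ 2) ^ 2)⁻¹) / J0 + 1, by positivity, ?_⟩
  obtain ⟨C, hC⟩ : ∃ C, C = (∫ x : ℝ, x ^ 2 * ((1 + x ^ 2) ^ 2)⁻¹) / J0 + 1 := ⟨_, rfl⟩
  rw [← hC]
  have hC0 : 0 ≤ C := by
    rw [hC]
    positivity
  intro V R _ _ a b c l0 e s T E hb hc hl0 hcol he hs0 hs1
  have he1 : ∀ S, 0 < 1 + e S := fun S => by
    have := he S
    linarith
  have hl : ∀ S : R, 0 < (fun S => l0 / (1 + e S)) S := fun S => div_pos hl0 (he1 S)
  obtain ⟨hI, hZ, -⟩ := st_int V R a b c (fun S => l0 / (1 + e S)) s T E hb hc hl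
  have hl0' : ∀ S : R, 0 < (fun _ : R => l0) S := fun _ => hl0
  obtain ⟨X, hX⟩ : ∃ X : (R → ℝ) → ℝ, X = fun y => ∑ v ∈ T, ph (s v * fn a v y) := ⟨_, rfl⟩
  -- expectation of the exponent
  have hiv : ∀ v, Integrable (fun y : R → ℝ => ph (s v * fn a v y) * ∏ S, dn l0 (y S)) := fun v =>
    ph_dn_int (fun _ => l0) hl0' (fun y => s v * fn a v y) (continuous_const.mul (fn_cont a v))
  have hEv : ∀ v, ∫ y : R → ℝ, ph (s v * fn a v y) * ∏ S, dn l0 (y S) ≤ C / l0 ^ 2 := by
    intro v
    have h1 : ∫ y : R → ℝ, ph (s v * fn a v y) * ∏ S, dn l0 (y S) ≤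
        ∫ y : R → ℝ, ph (∑ S, a v S * y S) * ∏ S, dn l0 (y S) := by
      apply integral_mono (hiv v)
        (ph_dn_int (fun _ => l0) hl0' (fun y => ∑ S, a v S * y S) (by fun_prop))
      intro y
      have h3 : 0 ≤ ∏ S, dn l0 (y S) := Finset.prod_nonneg fun S _ => dn_nonneg _ _ hl0
      exact mul_le_mul_of_nonneg_right (ph_mono _ _ (hs0 v) (hs1 v)) h3
    have h2 := ph_sub (fun _ => l0) hl0' (a v) Finset.univ
    have h3 : ∑ S' : R, ∫ y : R → ℝ, ph (a v S' * y S') * ∏ S, dn l0 (y S)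
        ≤ ∑ S' : R, a v S' ^ 2 * (C / l0 ^ 2) := by
      apply Finset.sum_le_sum
      intro S' _
      rw [ph_coord l0 (a v S') hl0 S']
      refine (ph_one l0 (a v S') hl0).trans ?_
      apply mul_le_mul_of_nonneg_left _ (sq_nonneg _)
      apply div_le_div_of_nonneg_right _ (by positivity)
      rw [hC]
      linarith
    have h4 : ∑ S' : R, a v S' ^ 2 * (C / l0 ^ 2) ≤ 1 * (C / l0 ^ 2) := by
      rw [← Finset.sum_mul]
      exact mul_le_mul_of_nonneg_right (hcol v) (by positivity)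
    calc _ ≤ _ := h1
      _ ≤ _ := h2
      _ ≤ _ := h3
      _ ≤ _ := h4
      _ = _ := by ring
  have hXint : Integrable (fun y : R → ℝ => X y * ∏ S, dn l0 (y S)) := by
    have : (fun y : R → ℝ => X y * ∏ S, dn l0 (y S)) =
        fun y => ∑ v ∈ T, ph (s v * fn a v y) * ∏ S, dn l0 (y S) := by
      funext y
      rw [hX, Finset.sum_mul]
    rw [this]
    exact integrable_finsetSum T fun v _ => hiv v
  have hEX : ∫ y : R → ℝ, X y * ∏ S, dn l0 (y S) ≤ C / l0 ^ 2 * T.card := by
    have : (fun y : R → ℝ => X y * ∏ S, dn l0 (y S)) =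
        fun y => ∑ v ∈ T, ph (s v * fn a v y) * ∏ S, dn l0 (y S) := by
      funext y
      rw [hX, Finset.sum_mul]
    rw [this, integral_finsetSum T fun v _ => hiv v, mul_comm (C / l0 ^ 2), ← nsmul_eq_mul]
    exact Finset.sum_le_card_nsmul _ _ _ fun v _ => hEv v
  obtain ⟨m, hm⟩ : ∃ m, m = b * (C / l0 ^ 2 * T.card) := ⟨_, rfl⟩
  obtain ⟨K, hK⟩ : ∃ K : ℝ, K = ∏ S, (1 / (1 + e S) : ℝ) := ⟨_, rfl⟩
  have hK0 : 0 < K := by
    rw [hK]
    exact Finset.prod_pos fun S _ => one_div_pos.mpr (he1 S)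
  have hlow : K * Real.exp (-m) ≤ ZZ a b c (fun S => l0 / (1 + e S)) s T E := by
    have h1 : ∫ y : R → ℝ, K * Real.exp (-m) * ((1 + m) * ∏ S, dn l0 (y S) -
        b * (X y * ∏ S, dn l0 (y S))) ≤ ZZ a b c (fun S => l0 / (1 + e S)) s T E := by
      unfold ZZ
      apply integral_mono _ hI
      · intro y
        show K * Real.exp (-m) * ((1 + m) * ∏ S, dn l0 (y S) -
          b * (X y * ∏ S, dn l0 (y S))) ≤ wt a b c (fun S => l0 / (1 + e S)) s T E y
        have h3 : 0 ≤ ∏ S, dn l0 (y S) := Finset.prod_nonneg fun S _ => dn_nonneg _ _ hl0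
        have h4 : K * ∏ S, dn l0 (y S) ≤ ∏ S, dn (l0 / (1 + e S)) (y S) := by
          rw [hK, ← Finset.prod_mul_distrib]
          apply Finset.prod_le_prod
          · intro S _
            have := dn_nonneg l0 (y S) hl0
            have := (one_div_pos.mpr (he1 S)).le
            positivity
          · intro S _
            exact dn_low l0 hl0 (e S) (he S) (y S)
        have h5 : Real.exp (-m) * (1 + m - b * X y) ≤ Real.exp (b * xp a c s T E y) := by
          have h6 : Real.exp (-(b * X y)) ≤ Real.exp (b * xp a c s T E y) := by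
            apply Real.exp_le_exp.mpr
            unfold xp
            have h7 : 0 ≤ ∑ u ∈ E, ph (fn a u y) := Finset.sum_nonneg fun u _ => ph_nonneg _
            have h8 : 0 ≤ b * (c * ∑ u ∈ E, ph (fn a u y)) := by positivity
            rw [hX]
            nlinarith
          have h9 : Real.exp (-(b * X y)) = Real.exp (-m) * Real.exp (m - b * X y) := by
            rw [← Real.exp_add]; congr 1; ring
          have h10 := Real.add_one_le_exp (m - b * X y)
          have h11 := mul_le_mul_of_nonneg_left h10 (Real.exp_pos (-m)).le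
          rw [h9] at h6
          calc Real.exp (-m) * (1 + m - b * X y) = Real.exp (-m) * (m - b * X y + 1) := by ring
            _ ≤ _ := h11
            _ ≤ _ := h6
        have h12 : 0 ≤ K * ∏ S, dn l0 (y S) := mul_nonneg hK0.le h3
        calc K * Real.exp (-m) * ((1 + m) * ∏ S, dn l0 (y S) - b * (X y * ∏ S, dn l0 (y S)))
            = (K * ∏ S, dn l0 (y S)) * (Real.exp (-m) * (1 + m - b * X y)) := by ring
          _ ≤ (K * ∏ S, dn l0 (y S)) * Real.exp (b * xp a c s T E y) :=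
              mul_le_mul_of_nonneg_left h5 h12
          _ ≤ (∏ S, dn (l0 / (1 + e S)) (y S)) * Real.exp (b * xp a c s T E y) :=
              mul_le_mul_of_nonneg_right h4 (Real.exp_pos _).le
          _ = _ := rfl
      · exact (((prod_dn_int (fun _ : R => l0) hl0').const_mul (1 + m)).sub
          (hXint.const_mul b)).const_mul _
    rw [integral_const_mul, integral_sub ((prod_dn_int (fun _ : R => l0) hl0').const_mul (1 + m))
      (hXint.const_mul b), integral_const_mul, integral_const_mul,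
      prod_dn_one (fun _ : R => l0) hl0'] at h1
    have h13 : 1 ≤ (1 + m) * 1 - b * ∫ y : R → ℝ, X y * ∏ S, dn l0 (y S) := by
      have := mul_le_mul_of_nonneg_left hEX hb
      rw [← hm] at this
      linarith
    have h14 := mul_le_mul_of_nonneg_left h13 (mul_pos hK0 (Real.exp_pos (-m))).le
    linarith
  have h15 := Real.log_le_log (mul_pos hK0 (Real.exp_pos (-m))) hlow
  rw [Real.log_mul hK0.ne' (Real.exp_pos _).ne', Real.log_exp] at h15
  have h16 : - (∑ S, e S) ≤ Real.log K := by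
    rw [hK, Real.log_prod (fun S _ => (one_div_pos.mpr (he1 S)).ne'), ← Finset.sum_neg_distrib]
    apply Finset.sum_le_sum
    intro S _
    rw [one_div, Real.log_inv]
    have := Real.log_le_sub_one_of_pos (he1 S)
    linarith
  calc - (∑ S, e S) - C * b / l0 ^ 2 * T.card = - (∑ S, e S) + -m := by rw [hm]; ring
    _ ≤ Real.log K + -m := by linarith
    _ ≤ _ := h15

end Pool.Agent.Helper61.KOM
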